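import Pool.Agent.H17.VG.TargetsC

/-! KP: points over an infinite subfield. -/

set_option autoImplicit false

namespace Pool.Agent.H17.VG

open MvPolynomial

theorem kp_choose {K N : Type} [Field K] [AddCommGroup N] [Module K N] [FiniteDimensional K N]
    (S : Set N) (r : ℕ) (h : r ≤ Module.finrank K (Submodule.span K S)) :
    ∃ w : Fin r → N, (∀ t, w t ∈ S) ∧ LinearIndependent K w := by
  obtain ⟨b, hbS, hspan, hb⟩ := exists_linearIndependent K S
  have hfin : Finite b := hb.finite
  have := Fintype.ofFinite b
  have hcard : Fintype.card b = Module.finrank K (Submodule.span K S) := by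
    rw [← hspan]
    have h1 := finrank_span_eq_card hb
    rw [Subtype.range_coe] at h1
    exact h1.symm
  obtain ⟨f⟩ := Function.Embedding.nonempty_of_card_le (α := Fin r) (β := b)
    (by rw [Fintype.card_fin, hcard]; exact h)
  exact ⟨fun t => f t, fun t => hbS (f t).2, hb.comp f f.injective⟩

theorem KP : T_KP := by
  intro k K V N ι κ _ _ _ _ _ _ _ _ _ _ _ B Q r hr
  classical
  have := Fintype.ofFinite κ
  obtain ⟨w, hw, hli⟩ := kp_choose _ r hr
  choose v i hvi using hw
  -- functionals
  obtain ⟨L, hL⟩ : ∃ L : N →ₗ[K] (Fin r → K), ∀ t, L (w t) = Pi.single t 1 := by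
    have hinj : LinearMap.ker (Fintype.linearCombination K w) = ⊥ := by
      rw [LinearMap.ker_eq_bot]
      exact linearIndependent_iff_injective_fintypeLinearCombination.1 hli
    obtain ⟨L, hL⟩ := LinearMap.exists_leftInverse_of_injective _ hinj
    refine ⟨L, fun t => ?_⟩
    have h1 := congrArg (fun g => g (Pi.single t (1 : K))) hL
    simpa [Fintype.linearCombination_apply_single] using h1
  -- the determinant
  obtain ⟨f, hf⟩ : ∃ f : MvPolynomial (ι × κ) K, ∀ Y : ι × κ → K, eval Y f =
      (Matrix.of fun s t : Fin r => L (B (v t) (fun j => Y (i t, j))) s).det := by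
    refine ⟨(Matrix.of fun s t : Fin r =>
      ∑ j, C (L (B (v t) (Pi.single j 1)) s) * X (i t, j)).det, fun Y => ?_⟩
    rw [RingHom.map_det]
    congr 1
    ext s t
    rw [RingHom.mapMatrix_apply, Matrix.map_apply, Matrix.of_apply, Matrix.of_apply, map_sum]
    have h1 : (fun j => Y (i t, j)) = ∑ j, Y (i t, j) • (Pi.single j (1 : K) : κ → K) := by
      ext j
      simp [Finset.sum_apply, Pi.single_apply]
    rw [h1, map_sum, map_sum, Finset.sum_apply]
    refine Finset.sum_congr rfl fun j _ => ?_
    rw [map_smul, map_smul, Pi.smul_apply, smul_eq_mul, map_mul, eval_C, eval_X, mul_comm]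
  have hf0 : f ≠ 0 := by
    intro h0
    have h1 := hf fun p => Q p.1 p.2
    have h2 : (Matrix.of fun s t : Fin r => L (B (v t) (fun j => Q (i t) j)) s) = 1 := by
      ext s t
      rw [Matrix.of_apply, ← hvi t, hL, Matrix.one_apply, Pi.single_apply]
    simp only at h1
    rw [h2, h0, map_zero, Matrix.det_one] at h1
    exact zero_ne_one h1
  obtain ⟨Y, hY, hYf⟩ : ∃ Y ∈ Set.pi Set.univ (fun _ : ι × κ => Set.range (algebraMap k K)),
      eval Y f ≠ 0 := by
    by_contra hcon
    push Not at hcon
    apply hf0
    refine funext_set (fun _ : ι × κ => Set.range (algebraMap k K))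
      (fun _ => Set.infinite_range_of_injective (algebraMap k K).injective) fun Y hY => ?_
    rw [map_zero]
    exact hcon Y hY
  have hY' : ∀ p, ∃ a : k, algebraMap k K a = Y p := fun p => hY p (Set.mem_univ p)
  choose q hq using hY'
  refine ⟨fun i j => q (i, j), ?_⟩
  have hli' : LinearIndependent K fun t : Fin r => B (v t) (fun j => algebraMap k K (q (i t, j))) := by
    rw [hf] at hYf
    have h1 := Matrix.linearIndependent_cols_of_det_ne_zero hYf
    refine LinearIndependent.of_comp L ?_
    convert! h1 using 1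
    ext t s
    simp [Matrix.col, hq]
  have h2 := finrank_span_eq_card hli'
  rw [Fintype.card_fin] at h2
  rw [← h2]
  refine Submodule.finrank_mono (Submodule.span_mono ?_)
  rintro _ ⟨t, rfl⟩
  exact ⟨v t, i t, rfl⟩

end Pool.Agent.H17.VG
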