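import Pool.Agent.H17.VG.TargetsB

/-! ET: the line is fixed. -/

set_option autoImplicit false

namespace Pool.Agent.H17.VG

open MvPolynomial SC Pool.Agent.H27.LV

/-- the forms in the ideal of the line vanish on the line -/
theorem et_il (hRS : T_RS) {K : Type} [Field K] {n e : ℕ} {x y : Fin (n + 1) → K}
    {G : MvPolynomial (Fin (n + 1)) K} (hG : G ∈ Il e x y) :
    G.IsHomogeneous (e + 1) ∧ res x y G = 0 := by
  unfold Il at hG
  induction hG using Submodule.span_induction with
  | mem G h =>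
    obtain ⟨ξ, Q, h1, h2, h3, rfl⟩ := h
    refine ⟨?_, ?_⟩
    · rw [add_comm e 1]
      exact (isHomogeneous_lin ξ).mul h3
    · have h4 := hRS K n e (lin ξ) Q x x ξ x y 0 0
      rw [h4.2.1, h4.2.2.2.1, h1, h2]
      simp
  | zero => exact ⟨isHomogeneous_zero _ _ _, by simp [res]⟩
  | add G G' _ _ h h' =>
    refine ⟨h.1.add h'.1, ?_⟩
    rw [(hRS K n e G G' x x x x y 0 0).1, h.2, h'.2, add_zero]
  | smul a G _ h =>
    rw [smul_eq_C_mul]
    refine ⟨?_, ?_⟩
    · have h1 := (isHomogeneous_C (Fin (n + 1)) a).mul h.1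
      rwa [zero_add] at h1
    · rw [(hRS K n e (C a) G x x x x y 0 0).2.1, h.2, mul_zero]

theorem ET (hRS : T_RS) (hKY : T_KY) (hPS : T_PS) (hIM : T_IM) : T_ET := by
  intro R K _ _ _ _ n e F D x y ξ hS hxy hxD hF m hm hnm hξx hξy Q τ' a' hQ hτF hτx
  by_contra hη
  obtain ⟨-, hfin, hP3⟩ := hPS R K n e F D x y hS hxy hF m hm
  have hkey : ∀ G ∈ Il e x y, ∀ (s : Op R K n) (a : K), opF s F = G → opV s x = a • x →
      res x y (dir (opV τ' y) G) ∈ Yl (R := R) e F x y (Ut R F x (Il e x y)) ⊔
        Submodule.span K {res x y Q} := by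
    intro G hG s a hsF hsx
    obtain ⟨hGh, hG0⟩ := et_il hRS hG
    obtain ⟨⟨b, hb⟩, hres⟩ := hKY R K n e F D x y ξ hS hξx hξy Q s τ' a a' hQ hτF hτx
      (by rw [hsF]; exact hG0) hsx
    rw [hsF] at hres
    have hP : res x y (dir (opV τ' y) G) -
        Polynomial.C (∑ i, ξ i * opV s y i) * res x y Q ∈
          Yl (R := R) e F x y (Ut R F x (Il e x y)) := by
      refine Submodule.subset_span ⟨?_, brk s τ', hres, ?_⟩
      · have h1 := (hRS K n e G G (opV τ' y) x x x y 0 0).2.2.2.2.2.2.2.2.2.2.2.2.1 hGh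
        have h2 := (hRS K n e (dir (opV τ' y) G) G x x x x y 0 0).2.2.2.2.2.2.2.2.2.2.2.1 h1
        have h3 := (hRS K n e Q G x x x x y 0 0).2.2.2.2.2.2.2.2.2.2.2.1 hQ
        exact (Polynomial.natDegree_sub_le _ _).trans
          (max_le h2 ((Polynomial.natDegree_C_mul_le _ _).trans h3))
      · rw [hb]
        exact Submodule.smul_mem _ _ (Submodule.subset_span (Or.inr rfl))
    have h4 : res x y (dir (opV τ' y) G) = (res x y (dir (opV τ' y) G) -
        Polynomial.C (∑ i, ξ i * opV s y i) * res x y Q) +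
          (∑ i, ξ i * opV s y i) • res x y Q := by
      rw [Polynomial.smul_eq_C_mul]
      ring
    rw [h4]
    exact Submodule.add_mem_sup hP
      (Submodule.smul_mem _ _ (Submodule.mem_span_singleton_self _))
  have hfin' : FiniteDimensional K ↥(Submodule.span K {res x y Q}) :=
    FiniteDimensional.span_singleton K _
  have h1 := hIM R K n e F D x y (opV τ' y) hS hxy hxD hη
    (Yl (R := R) e F x y (Ut R F x (Il e x y)) ⊔ Submodule.span K {res x y Q})
    (Submodule.finiteDimensional_sup _ _) hkey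
  have h2 := Submodule.finrank_add_le_finrank_add_finrank
    (Yl (R := R) e F x y (Ut R F x (Il e x y))) (Submodule.span K {res x y Q})
  have h3 : Module.finrank K ↥(Submodule.span K {res x y Q}) ≤ 1 := by
    have := finrank_span_le_card (R := K) ({res x y Q} : Set (Polynomial K))
    simpa using this
  omega

end Pool.Agent.H17.VG
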