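import Pool.Agent.H17.VG.TargetsG

/-! G2: derivations over the rational numbers with given values on algebraically independent
elements. -/

set_option autoImplicit false

namespace Pool.Agent.H17.VG

theorem G2 (hG1 : T_G1) : T_G2 := by
  intro k ι _ _ x hx w
  obtain ⟨t, hst, ht⟩ := exists_isTranscendenceBasis_superset hx.to_subtype_range
  have hinj : Function.Injective x := hx.injective
  classical
  obtain ⟨D, hD⟩ := hG1 ℚ k t (fun r => r.1) ht
    (fun r : t => if h : ∃ i, x i = r.1 then w h.choose else 0)
  refine ⟨D, fun i => ?_⟩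
  have := hD ⟨x i, hst ⟨i, rfl⟩⟩
  rw [show D (x i) = _ from this]
  have hex : ∃ j, x j = x i := ⟨i, rfl⟩
  rw [dif_pos hex]
  congr 1
  exact hinj hex.choose_spec

end Pool.Agent.H17.VG
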